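import Pool.Agent.Helper33.DP.Sheet

/-! Row T1 (MP_fcb106_co, polynomial upper bound): the fractional closure theorem. -/

set_option autoImplicit false

namespace Pool.Agent.Helper14.PL

open Finset Pool.Agent.Helper33.DP

/-- the harmonic mean is at most the arithmetic mean (Jensen for the inverse) -/
theorem inv_sum_le {ι : Type} (s : Finset ι) (p t : ι → ℝ) (hp : ∀ i ∈ s, 0 ≤ p i)
    (h1 : ∑ i ∈ s, p i = 1) (ht : ∀ i ∈ s, 0 < p i → 0 < t i) :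
    (∑ i ∈ s, p i * t i)⁻¹ ≤ ∑ i ∈ s, p i * (t i)⁻¹ := by
  have hn1 : ∀ i ∈ s, 0 ≤ p i * t i := by
    intro i hi
    rcases (hp i hi).eq_or_lt with h | h
    · rw [← h, zero_mul]
    · exact (mul_pos h (ht i hi h)).le
  have hn2 : ∀ i ∈ s, 0 ≤ p i * (t i)⁻¹ := by
    intro i hi
    rcases (hp i hi).eq_or_lt with h | h
    · rw [← h, zero_mul]
    · exact (mul_pos h (inv_pos.mpr (ht i hi h))).le
  have hcs := Finset.sum_sq_le_sum_mul_sum_of_sq_eq_mul s (r := p) hn1 hn2 (by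
    intro i hi
    rcases (hp i hi).eq_or_lt with h | h
    · rw [← h]; ring
    · have := (ht i hi h).ne'
      field_simp)
  rw [h1, one_pow] at hcs
  have hpos : 0 < ∑ i ∈ s, p i * t i := by
    have h0 : 0 ≤ ∑ i ∈ s, p i * t i := Finset.sum_nonneg hn1
    rcases h0.eq_or_lt with h | h
    · rw [← h, zero_mul] at hcs
      linarith
    · exact h
  rw [inv_le_iff_one_le_mul₀ hpos]
  linarith

/-- the normalised mixture of perfect matchings -/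
theorem norm_DS (h3 : ST_DS3) {w : ℕ} (G : Gr w) (hG : ∃ D, DS G D)
    (θ : Equiv.Perm (Fin w) → ℝ) (hθ : ∀ σ, 0 ≤ θ σ) (hz : ∀ σ, ¬ PM G σ → θ σ = 0) :
    ∃ D, DS G D ∧ ∀ f : Fin w → Fin w → ℝ, ∑ σ, θ σ * ∑ i, f i (σ i) =
      (∑ σ, θ σ) * ∑ a, ∑ b, D a b * f a b := by
  have h0 : 0 ≤ ∑ σ, θ σ := Finset.sum_nonneg (fun σ _ => hθ σ)
  rcases h0.eq_or_lt with h | h
  · obtain ⟨D, hD⟩ := hG
    refine ⟨D, hD, fun f => ?_⟩
    have hall : ∀ σ, θ σ = 0 := by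
      intro σ
      exact (Finset.sum_eq_zero_iff_of_nonneg (fun σ _ => hθ σ)).mp h.symm σ (Finset.mem_univ σ)
    rw [← h, zero_mul]
    exact Finset.sum_eq_zero (fun σ _ => by rw [hall σ, zero_mul])
  · obtain ⟨hD, hf⟩ := h3 w G (fun σ => θ σ / ∑ τ, θ τ) (fun σ => div_nonneg (hθ σ) h0)
      (by rw [← Finset.sum_div, div_self h.ne']) (fun σ hσ => by rw [hz σ hσ, zero_div])
    refine ⟨_, hD, fun f => ?_⟩
    rw [← hf f, Finset.mul_sum]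
    refine Finset.sum_congr rfl (fun σ _ => ?_)
    field_simp

section key

variable {w : ℕ} {G G₁ G₂ : Gr w} {μ D₁ D₂ : Fin w → Fin w → ℝ} {β : ℝ}

/-- the routing along a product of doubly stochastic matrices -/
noncomputable def rt (μ D₁ D₂ : Fin w → Fin w → ℝ) (a x b : Fin w) : ℝ :=
  μ a b / (∑ y, D₁ a y * D₂ y b) * (D₁ a x * D₂ x b)

theorem mem_comp {G₁ G₂ : Gr w} {a b : Fin w} :
    (a, b) ∈ comp G₁ G₂ ↔ ∃ x, (a, x) ∈ G₁ ∧ (x, b) ∈ G₂ := by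
  classical
  simp [comp]

/-- `D` is positive on `G` -/
def PosOn (G : Gr w) (D : Fin w → Fin w → ℝ) : Prop := ∀ a b, (a, b) ∈ G → 0 < D a b

theorem prod_pos (hD₁ : DS G₁ D₁) (hD₂ : DS G₂ D₂) (hp₁ : PosOn G₁ D₁) (hp₂ : PosOn G₂ D₂)
    {a x b : Fin w} (h1 : (a, x) ∈ G₁) (h2 : (x, b) ∈ G₂) : 0 < ∑ y, D₁ a y * D₂ y b := by
  refine Finset.sum_pos' (fun y _ => mul_nonneg (hD₁.nonneg a y) (hD₂.nonneg y b))
    ⟨x, Finset.mem_univ x, mul_pos (hp₁ a x h1) (hp₂ x b h2)⟩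

theorem rt_pos (hcomp : comp G₁ G₂ ⊆ G) (hμ : Bdd G μ β) (hD₁ : DS G₁ D₁) (hD₂ : DS G₂ D₂)
    (hp₁ : PosOn G₁ D₁) (hp₂ : PosOn G₂ D₂) {a x b : Fin w} (h1 : (a, x) ∈ G₁)
    (h2 : (x, b) ∈ G₂) : 0 < rt μ D₁ D₂ a x b := by
  have h3 : (a, b) ∈ G := hcomp (mem_comp.mpr ⟨x, h1, h2⟩)
  exact mul_pos (div_pos (hμ.pos a b h3) (prod_pos hD₁ hD₂ hp₁ hp₂ h1 h2))
    (mul_pos (hp₁ a x h1) (hp₂ x b h2))

theorem rt_zero (hD₁ : DS G₁ D₁) (hD₂ : DS G₂ D₂) {a x b : Fin w}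
    (h : ¬ ((a, x) ∈ G₁ ∧ (x, b) ∈ G₂)) : rt μ D₁ D₂ a x b = 0 := by
  unfold rt
  by_cases h1 : (a, x) ∈ G₁
  · have h2 : (x, b) ∉ G₂ := fun h2 => h ⟨h1, h2⟩
    rw [hD₂.supp x b h2, mul_zero, mul_zero]
  · rw [hD₁.supp a x h1, zero_mul, mul_zero]

theorem rt_sum (hD₁ : DS G₁ D₁) (hD₂ : DS G₂ D₂) (hp₁ : PosOn G₁ D₁) (hp₂ : PosOn G₂ D₂)
    {a b : Fin w} (h : (a, b) ∈ comp G₁ G₂) : ∑ x, rt μ D₁ D₂ a x b = μ a b := by
  obtain ⟨x, h1, h2⟩ := mem_comp.mp h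
  have hpos := prod_pos hD₁ hD₂ hp₁ hp₂ h1 h2
  unfold rt
  rw [← Finset.mul_sum, div_mul_cancel₀ _ hpos.ne']

/-- the bound on the left side -/
theorem rt_left (h1 : ST_DS1) (h2 : ST_DS2) (hcomp : comp G₁ G₂ ⊆ G) (hμ : Bdd G μ β)
    (hD₁ : DS G₁ D₁) (hD₂ : DS G₂ D₂) (hp₁ : PosOn G₁ D₁) (hp₂ : PosOn G₂ D₂) :
    ∑ a, ∑ x, D₁ a x * (∑ b, rt μ D₁ D₂ a x b)⁻¹ ≤ β := by
  have hD : DS (comp G₁ G₂) (fun a b => ∑ x, D₁ a x * D₂ x b) := h2 w G₁ G₂ D₁ D₂ hD₁ hD₂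
  have hDG : DS G (fun a b => ∑ x, D₁ a x * D₂ x b) :=
    ⟨hD.nonneg, hD.row, hD.col, fun a b hab => hD.supp a b (fun h => hab (hcomp h))⟩
  have hb := h1 w G μ _ β hμ hDG
  refine le_trans ?_ hb
  -- nonnegativity of the terms of the bound
  have hnn : ∀ a b, 0 ≤ (∑ x, D₁ a x * D₂ x b) * (μ a b)⁻¹ := by
    intro a b
    by_cases hab : (a, b) ∈ G
    · exact mul_nonneg (hD.nonneg a b) (inv_nonneg.mpr (hμ.pos a b hab).le)
    · rw [hDG.supp a b hab, zero_mul]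
  have step : ∀ a x, D₁ a x * (∑ b, rt μ D₁ D₂ a x b)⁻¹ ≤
      ∑ b, D₂ x b * ((∑ y, D₁ a y * D₂ y b) * (μ a b)⁻¹) := by
    intro a x
    by_cases hax : (a, x) ∈ G₁
    · have hd := hp₁ a x hax
      have e1 : ∑ b, rt μ D₁ D₂ a x b =
          D₁ a x * ∑ b, D₂ x b * (μ a b / ∑ y, D₁ a y * D₂ y b) := by
        rw [Finset.mul_sum]
        refine Finset.sum_congr rfl (fun b _ => ?_)
        unfold rt
        ring
      rw [e1, mul_inv, ← mul_assoc, mul_inv_cancel₀ hd.ne', one_mul]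
      have hj := inv_sum_le (Finset.univ : Finset (Fin w)) (fun b => D₂ x b)
        (fun b => μ a b / ∑ y, D₁ a y * D₂ y b) (fun b _ => hD₂.nonneg x b) (hD₂.row x) (by
          intro b _ hb
          have hxb : (x, b) ∈ G₂ := by
            by_contra hcon
            have hb' : 0 < D₂ x b := hb
            rw [hD₂.supp x b hcon] at hb'
            exact lt_irrefl _ hb'
          exact div_pos (hμ.pos a b (hcomp (mem_comp.mpr ⟨x, hax, hxb⟩)))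
            (prod_pos hD₁ hD₂ hp₁ hp₂ hax hxb))
      refine le_trans hj (le_of_eq ?_)
      refine Finset.sum_congr rfl (fun b _ => ?_)
      rw [inv_div, div_eq_mul_inv]
    · rw [hD₁.supp a x hax, zero_mul]
      exact Finset.sum_nonneg (fun b _ => mul_nonneg (hD₂.nonneg x b) (hnn a b))
  calc ∑ a, ∑ x, D₁ a x * (∑ b, rt μ D₁ D₂ a x b)⁻¹
      ≤ ∑ a, ∑ x, ∑ b, D₂ x b * ((∑ y, D₁ a y * D₂ y b) * (μ a b)⁻¹) :=
        Finset.sum_le_sum (fun a _ => Finset.sum_le_sum (fun x _ => step a x))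
    _ = ∑ a, ∑ b, (∑ y, D₁ a y * D₂ y b) * (μ a b)⁻¹ := by
        refine Finset.sum_congr rfl (fun a _ => ?_)
        rw [Finset.sum_comm]
        refine Finset.sum_congr rfl (fun b _ => ?_)
        rw [← Finset.sum_mul, hD₂.col b, one_mul]

/-- the bound on the right side -/
theorem rt_right (h1 : ST_DS1) (h2 : ST_DS2) (hcomp : comp G₁ G₂ ⊆ G) (hμ : Bdd G μ β)
    (hD₁ : DS G₁ D₁) (hD₂ : DS G₂ D₂) (hp₁ : PosOn G₁ D₁) (hp₂ : PosOn G₂ D₂) :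
    ∑ x, ∑ b, D₂ x b * (∑ a, rt μ D₁ D₂ a x b)⁻¹ ≤ β := by
  have hD : DS (comp G₁ G₂) (fun a b => ∑ x, D₁ a x * D₂ x b) := h2 w G₁ G₂ D₁ D₂ hD₁ hD₂
  have hDG : DS G (fun a b => ∑ x, D₁ a x * D₂ x b) :=
    ⟨hD.nonneg, hD.row, hD.col, fun a b hab => hD.supp a b (fun h => hab (hcomp h))⟩
  have hb := h1 w G μ _ β hμ hDG
  refine le_trans ?_ hb
  have hnn : ∀ a b, 0 ≤ (∑ x, D₁ a x * D₂ x b) * (μ a b)⁻¹ := by
    intro a b
    by_cases hab : (a, b) ∈ G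
    · exact mul_nonneg (hD.nonneg a b) (inv_nonneg.mpr (hμ.pos a b hab).le)
    · rw [hDG.supp a b hab, zero_mul]
  have step : ∀ x b, D₂ x b * (∑ a, rt μ D₁ D₂ a x b)⁻¹ ≤
      ∑ a, D₁ a x * ((∑ y, D₁ a y * D₂ y b) * (μ a b)⁻¹) := by
    intro x b
    by_cases hxb : (x, b) ∈ G₂
    · have hd := hp₂ x b hxb
      have e1 : ∑ a, rt μ D₁ D₂ a x b =
          D₂ x b * ∑ a, D₁ a x * (μ a b / ∑ y, D₁ a y * D₂ y b) := by
        rw [Finset.mul_sum]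
        refine Finset.sum_congr rfl (fun a _ => ?_)
        unfold rt
        ring
      rw [e1, mul_inv, ← mul_assoc, mul_inv_cancel₀ hd.ne', one_mul]
      have hj := inv_sum_le (Finset.univ : Finset (Fin w)) (fun a => D₁ a x)
        (fun a => μ a b / ∑ y, D₁ a y * D₂ y b) (fun a _ => hD₁.nonneg a x) (hD₁.col x) (by
          intro a _ ha
          have hax : (a, x) ∈ G₁ := by
            by_contra hcon
            have ha' : 0 < D₁ a x := ha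
            rw [hD₁.supp a x hcon] at ha'
            exact lt_irrefl _ ha'
          exact div_pos (hμ.pos a b (hcomp (mem_comp.mpr ⟨x, hax, hxb⟩)))
            (prod_pos hD₁ hD₂ hp₁ hp₂ hax hxb))
      refine le_trans hj (le_of_eq ?_)
      refine Finset.sum_congr rfl (fun a _ => ?_)
      rw [inv_div, div_eq_mul_inv]
    · rw [hD₂.supp x b hxb, zero_mul]
      exact Finset.sum_nonneg (fun a _ => mul_nonneg (hD₁.nonneg a x) (hnn a b))
  calc ∑ x, ∑ b, D₂ x b * (∑ a, rt μ D₁ D₂ a x b)⁻¹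
      ≤ ∑ x, ∑ b, ∑ a, D₁ a x * ((∑ y, D₁ a y * D₂ y b) * (μ a b)⁻¹) :=
        Finset.sum_le_sum (fun x _ => Finset.sum_le_sum (fun b _ => step x b))
    _ = ∑ a, ∑ b, ∑ x, D₁ a x * ((∑ y, D₁ a y * D₂ y b) * (μ a b)⁻¹) := by
        rw [Finset.sum_comm' (s := Finset.univ) (t := fun _ => Finset.univ)
          (t' := Finset.univ) (s' := fun _ => Finset.univ) (by simp)]
        rw [Finset.sum_congr rfl (fun b _ => Finset.sum_comm)]
        rw [Finset.sum_comm]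
    _ = ∑ a, ∑ b, (∑ y, D₁ a y * D₂ y b) * (μ a b)⁻¹ := by
        refine Finset.sum_congr rfl (fun a _ => Finset.sum_congr rfl (fun b _ => ?_))
        rw [← Finset.sum_mul, hD₁.row a, one_mul]

end key

/-- the routings -/
def ZZ {w : ℕ} (G₁ G₂ : Gr w) (μ : Fin w → Fin w → ℝ) : Set (Fin w → Fin w → Fin w → ℝ) :=
  {z | (∀ a x b, (a, x) ∈ G₁ → (x, b) ∈ G₂ → 0 < z a x b) ∧
    (∀ a x b, ¬ ((a, x) ∈ G₁ ∧ (x, b) ∈ G₂) → z a x b = 0) ∧
    (∀ a b, (a, b) ∈ comp G₁ G₂ → ∑ x, z a x b = μ a b)}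

theorem ZZ_nonneg {w : ℕ} {G₁ G₂ : Gr w} {μ : Fin w → Fin w → ℝ}
    {z : Fin w → Fin w → Fin w → ℝ} (hz : z ∈ ZZ G₁ G₂ μ) (a x b : Fin w) : 0 ≤ z a x b := by
  by_cases h : (a, x) ∈ G₁ ∧ (x, b) ∈ G₂
  · exact (hz.1 a x b h.1 h.2).le
  · rw [hz.2.1 a x b h]

theorem ZZ_convex {w : ℕ} (G₁ G₂ : Gr w) (μ : Fin w → Fin w → ℝ) :
    Convex ℝ (ZZ G₁ G₂ μ) := by
  intro z hz z' hz' s t hs ht hst
  refine ⟨?_, ?_, ?_⟩
  · intro a x b h1 h2
    have e1 := hz.1 a x b h1 h2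
    have e2 := hz'.1 a x b h1 h2
    show 0 < s * z a x b + t * z' a x b
    rcases hs.eq_or_lt with h | h
    · have ht1 : t = 1 := by linarith
      rw [← h, ht1]; linarith
    · have := mul_pos h e1
      have := mul_nonneg ht e2.le
      linarith
  · intro a x b h
    show s * z a x b + t * z' a x b = 0
    rw [hz.2.1 a x b h, hz'.2.1 a x b h]; ring
  · intro a b h
    show ∑ x, (s * z a x b + t * z' a x b) = μ a b
    rw [Finset.sum_add_distrib, ← Finset.mul_sum, ← Finset.mul_sum, hz.2.2 a b h,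
      hz'.2.2 a b h, ← add_mul, hst, one_mul]

theorem ZZ_left {w : ℕ} {G₁ G₂ : Gr w} {μ : Fin w → Fin w → ℝ} (h2 : IsCore G₂)
    {z : Fin w → Fin w → Fin w → ℝ} (hz : z ∈ ZZ G₁ G₂ μ) {a x : Fin w} (h : (a, x) ∈ G₁) :
    0 < ∑ b, z a x b := by
  obtain ⟨σ, hσ⟩ := h2.ex
  exact Finset.sum_pos' (fun b _ => ZZ_nonneg hz a x b)
    ⟨σ x, Finset.mem_univ _, hz.1 a x (σ x) h (hσ x)⟩

theorem ZZ_right {w : ℕ} {G₁ G₂ : Gr w} {μ : Fin w → Fin w → ℝ} (h1 : IsCore G₁)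
    {z : Fin w → Fin w → Fin w → ℝ} (hz : z ∈ ZZ G₁ G₂ μ) {x b : Fin w} (h : (x, b) ∈ G₂) :
    0 < ∑ a, z a x b := by
  obtain ⟨σ, hσ⟩ := h1.ex
  refine Finset.sum_pos' (fun a _ => ZZ_nonneg hz a x b)
    ⟨σ.symm x, Finset.mem_univ _, hz.1 (σ.symm x) x b ?_ h⟩
  have := hσ (σ.symm x)
  rwa [Equiv.apply_symm_apply] at this

theorem inv_convex {x y s t : ℝ} (hx : 0 < x) (hy : 0 < y) (hs : 0 ≤ s) (ht : 0 ≤ t)
    (hst : s + t = 1) : (s * x + t * y)⁻¹ ≤ s * x⁻¹ + t * y⁻¹ := by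
  have hpos : 0 < s * x + t * y := by
    rcases hs.eq_or_lt with h | h
    · have ht1 : t = 1 := by linarith
      rw [← h, ht1]; linarith
    · have := mul_pos h hx
      have := mul_nonneg ht hy.le
      linarith
  rw [inv_le_iff_one_le_mul₀ hpos]
  have e : (s * x⁻¹ + t * y⁻¹) * (s * x + t * y) = s ^ 2 + t ^ 2 + s * t * (x * y⁻¹ + y * x⁻¹) := by
    field_simp
    ring
  rw [e]
  have h2 : 2 ≤ x * y⁻¹ + y * x⁻¹ := by
    have e2 : x * y⁻¹ + y * x⁻¹ - 2 = (x - y) ^ 2 / (x * y) := by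
      field_simp
      ring
    have e3 : 0 ≤ (x - y) ^ 2 / (x * y) := div_nonneg (sq_nonneg _) (mul_pos hx hy).le
    linarith
  have h3 : 0 ≤ s * t := mul_nonneg hs ht
  have h4 : (s + t) ^ 2 = 1 := by rw [hst]; ring
  nlinarith

open Classical in
/-- the potentials -/
noncomputable def ph {w : ℕ} (G₁ G₂ : Gr w) :
    Equiv.Perm (Fin w) ⊕ Equiv.Perm (Fin w) → (Fin w → Fin w → Fin w → ℝ) → ℝ
  | Sum.inl σ, z => if PM G₁ σ then ∑ i, (∑ b, z i (σ i) b)⁻¹ else 0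
  | Sum.inr σ, z => if PM G₂ σ then ∑ i, (∑ a, z a i (σ i))⁻¹ else 0

theorem ph_convex {w : ℕ} {G₁ G₂ : Gr w} (μ : Fin w → Fin w → ℝ) (h1 : IsCore G₁)
    (h2 : IsCore G₂) (j : Equiv.Perm (Fin w) ⊕ Equiv.Perm (Fin w)) :
    ConvexOn ℝ (ZZ G₁ G₂ μ) (ph G₁ G₂ j) := by
  refine ⟨ZZ_convex G₁ G₂ μ, ?_⟩
  intro z hz z' hz' s t hs ht hst
  rcases j with σ | σ
  · by_cases hσ : PM G₁ σ
    · simp only [ph, if_pos hσ, smul_eq_mul, Finset.mul_sum, ← Finset.sum_add_distrib]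
      refine Finset.sum_le_sum (fun i _ => ?_)
      have e : ∑ b, (s • z + t • z') i (σ i) b =
          s * ∑ b, z i (σ i) b + t * ∑ b, z' i (σ i) b := by
        rw [Finset.mul_sum, Finset.mul_sum, ← Finset.sum_add_distrib]
        rfl
      rw [e]
      exact inv_convex (ZZ_left h2 hz (hσ i)) (ZZ_left h2 hz' (hσ i)) hs ht hst
    · simp [ph, if_neg hσ]
  · by_cases hσ : PM G₂ σ
    · simp only [ph, if_pos hσ, smul_eq_mul, Finset.mul_sum, ← Finset.sum_add_distrib]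
      refine Finset.sum_le_sum (fun i _ => ?_)
      have e : ∑ a, (s • z + t • z') a i (σ i) =
          s * ∑ a, z a i (σ i) + t * ∑ a, z' a i (σ i) := by
        rw [Finset.mul_sum, Finset.mul_sum, ← Finset.sum_add_distrib]
        rfl
      rw [e]
      exact inv_convex (ZZ_right h1 hz (hσ i)) (ZZ_right h1 hz' (hσ i)) hs ht hst
    · simp [ph, if_neg hσ]

theorem pos_mix (h4 : ST_DS4) {w : ℕ} (hw : 1 ≤ w) {G : Gr w} (hG : IsCore G)
    {D : Fin w → Fin w → ℝ} (hD : DS G D) {k : ℝ} (hk : 0 < k) (hk1 : k < 1) :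
    ∃ D', DS G D' ∧ PosOn G D' ∧ ∀ a b, D a b ≤ D' a b / (1 - k) := by
  obtain ⟨D0, hD0, hp0⟩ := h4 w G hw hG
  have hw0 : (0 : ℝ) < w := by exact_mod_cast hw
  have h1k : 0 < 1 - k := by linarith
  refine ⟨fun a b => (1 - k) * D a b + k * D0 a b, ⟨?_, ?_, ?_, ?_⟩, ?_, ?_⟩
  · intro a b
    exact add_nonneg (mul_nonneg h1k.le (hD.nonneg a b)) (mul_nonneg hk.le (hD0.nonneg a b))
  · intro a
    rw [Finset.sum_add_distrib, ← Finset.mul_sum, ← Finset.mul_sum, hD.row, hD0.row]; ring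
  · intro b
    rw [Finset.sum_add_distrib, ← Finset.mul_sum, ← Finset.mul_sum, hD.col, hD0.col]; ring
  · intro a b hab
    show (1 - k) * D a b + k * D0 a b = 0
    rw [hD.supp a b hab, hD0.supp a b hab]; ring
  · intro a b hab
    have e1 : 0 < D0 a b := lt_of_lt_of_le (by positivity) (hp0 a b hab)
    have e2 := mul_nonneg h1k.le (hD.nonneg a b)
    have e3 := mul_pos hk e1
    show 0 < (1 - k) * D a b + k * D0 a b
    linarith
  · intro a b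
    rw [le_div_iff₀ h1k]
    have e3 := mul_nonneg hk.le (hD0.nonneg a b)
    linarith

/-- **T1**, the fractional closure theorem -/
theorem T1 (hML : ST_ML) (h1 : ST_DS1) (h2 : ST_DS2) (h3 : ST_DS3) (h4 : ST_DS4) : ST_T1 := by
  classical
  intro w G G₁ G₂ μ β β' hw hG₁ hG₂ hcomp hμ hβ
  -- β is positive
  have hβ0 : 0 < β := by
    obtain ⟨σ₁, hσ₁⟩ := hG₁.ex
    obtain ⟨σ₂, hσ₂⟩ := hG₂.ex
    have hpm : PM G (σ₁.trans σ₂) := by
      intro i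
      exact hcomp (mem_comp.mpr ⟨σ₁ i, hσ₁ i, hσ₂ (σ₁ i)⟩)
    refine lt_of_lt_of_le ?_ (hμ.le _ hpm)
    haveI : Nonempty (Fin w) := ⟨⟨0, hw⟩⟩
    exact Finset.sum_pos (fun i _ => inv_pos.mpr (hμ.pos _ _ (hpm i))) Finset.univ_nonempty
  set k : ℝ := (β' - β) / (2 * β') with hk
  have hβ'0 : 0 < β' := lt_trans hβ0 hβ
  have hk0 : 0 < k := div_pos (by linarith) (by linarith)
  have hkβ : k * β' = (β' - β) / 2 := by rw [hk]; field_simp
  have hk1 : k < 1 := by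
    rw [hk, div_lt_one (by linarith)]; linarith
  have h1k : 0 < 1 - k := by linarith
  have hβk : β / (1 - k) < β' := by
    rw [div_lt_iff₀ h1k]; nlinarith
  obtain ⟨z, hz, hφ⟩ := hML (Equiv.Perm (Fin w) ⊕ Equiv.Perm (Fin w))
    (Fin w → Fin w → Fin w → ℝ) (ZZ G₁ G₂ μ) (ph G₁ G₂) (β / (1 - k)) β'
    (ZZ_convex G₁ G₂ μ) (ph_convex μ hG₁ hG₂) hβk (by
      intro θ hθ hθ1
      rw [Fintype.sum_sum_type] at hθ1
      obtain ⟨D0₁, hD0₁, -⟩ := h4 w G₁ hw hG₁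
      obtain ⟨D0₂, hD0₂, -⟩ := h4 w G₂ hw hG₂
      obtain ⟨D₁, hD₁, hf₁⟩ := norm_DS h3 G₁ ⟨D0₁, hD0₁⟩
        (fun σ => if PM G₁ σ then θ (Sum.inl σ) else 0)
        (fun σ => by split_ifs; exact hθ _; exact le_rfl) (fun σ hσ => if_neg hσ)
      obtain ⟨D₂, hD₂, hf₂⟩ := norm_DS h3 G₂ ⟨D0₂, hD0₂⟩
        (fun σ => if PM G₂ σ then θ (Sum.inr σ) else 0)
        (fun σ => by split_ifs; exact hθ _; exact le_rfl) (fun σ hσ => if_neg hσ)
      obtain ⟨D₁', hD₁', hp₁, hle₁⟩ := pos_mix h4 hw hG₁ hD₁ hk0 hk1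
      obtain ⟨D₂', hD₂', hp₂, hle₂⟩ := pos_mix h4 hw hG₂ hD₂ hk0 hk1
      have hzz : (rt μ D₁' D₂') ∈ ZZ G₁ G₂ μ :=
        ⟨fun a x b ha hb => rt_pos hcomp hμ hD₁' hD₂' hp₁ hp₂ ha hb,
          fun a x b h => rt_zero hD₁' hD₂' h, fun a b h => rt_sum hD₁' hD₂' hp₁ hp₂ h⟩
      refine ⟨rt μ D₁' D₂', hzz, ?_⟩
      have hl := rt_left h1 h2 hcomp hμ hD₁' hD₂' hp₁ hp₂
      have hr := rt_right h1 h2 hcomp hμ hD₁' hD₂' hp₁ hp₂
      have hl' : ∑ a, ∑ x, D₁ a x * (∑ b, rt μ D₁' D₂' a x b)⁻¹ ≤ β / (1 - k) := by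
        rw [le_div_iff₀ h1k]
        refine le_trans ?_ hl
        rw [Finset.sum_mul]
        refine Finset.sum_le_sum (fun a _ => ?_)
        rw [Finset.sum_mul]
        refine Finset.sum_le_sum (fun x _ => ?_)
        have e1 := hle₁ a x
        rw [le_div_iff₀ h1k] at e1
        have e2 : 0 ≤ (∑ b, rt μ D₁' D₂' a x b)⁻¹ :=
          inv_nonneg.mpr (Finset.sum_nonneg (fun b _ => ZZ_nonneg hzz a x b))
        nlinarith
      have hr' : ∑ x, ∑ b, D₂ x b * (∑ a, rt μ D₁' D₂' a x b)⁻¹ ≤ β / (1 - k) := by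
        rw [le_div_iff₀ h1k]
        refine le_trans ?_ hr
        rw [Finset.sum_mul]
        refine Finset.sum_le_sum (fun x _ => ?_)
        rw [Finset.sum_mul]
        refine Finset.sum_le_sum (fun b _ => ?_)
        have e1 := hle₂ x b
        rw [le_div_iff₀ h1k] at e1
        have e2 : 0 ≤ (∑ a, rt μ D₁' D₂' a x b)⁻¹ :=
          inv_nonneg.mpr (Finset.sum_nonneg (fun a _ => ZZ_nonneg hzz a x b))
        nlinarith
      rw [Fintype.sum_sum_type]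
      have s1 : ∑ σ, θ (Sum.inl σ) * ph G₁ G₂ (Sum.inl σ) (rt μ D₁' D₂') =
          (∑ σ, if PM G₁ σ then θ (Sum.inl σ) else 0) *
            ∑ a, ∑ x, D₁ a x * (∑ b, rt μ D₁' D₂' a x b)⁻¹ := by
        rw [← hf₁ (fun a x => (∑ b, rt μ D₁' D₂' a x b)⁻¹)]
        refine Finset.sum_congr rfl (fun σ _ => ?_)
        by_cases hσ : PM G₁ σ
        · simp only [ph, if_pos hσ]
        · simp only [ph, if_neg hσ, mul_zero, zero_mul]
      have s2 : ∑ σ, θ (Sum.inr σ) * ph G₁ G₂ (Sum.inr σ) (rt μ D₁' D₂') =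
          (∑ σ, if PM G₂ σ then θ (Sum.inr σ) else 0) *
            ∑ x, ∑ b, D₂ x b * (∑ a, rt μ D₁' D₂' a x b)⁻¹ := by
        rw [← hf₂ (fun x b => (∑ a, rt μ D₁' D₂' a x b)⁻¹)]
        refine Finset.sum_congr rfl (fun σ _ => ?_)
        by_cases hσ : PM G₂ σ
        · simp only [ph, if_pos hσ]
        · simp only [ph, if_neg hσ, mul_zero, zero_mul]
      rw [s1, s2]
      have t1 : (∑ σ, if PM G₁ σ then θ (Sum.inl σ) else 0) ≤ ∑ σ, θ (Sum.inl σ) :=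
        Finset.sum_le_sum (fun σ _ => by split_ifs; exact le_rfl; exact hθ _)
      have t2 : (∑ σ, if PM G₂ σ then θ (Sum.inr σ) else 0) ≤ ∑ σ, θ (Sum.inr σ) :=
        Finset.sum_le_sum (fun σ _ => by split_ifs; exact le_rfl; exact hθ _)
      have t3 : 0 ≤ (∑ σ, if PM G₁ σ then θ (Sum.inl σ) else 0) :=
        Finset.sum_nonneg (fun σ _ => by split_ifs; exact hθ _; exact le_rfl)
      have t4 : 0 ≤ (∑ σ, if PM G₂ σ then θ (Sum.inr σ) else 0) :=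
        Finset.sum_nonneg (fun σ _ => by split_ifs; exact hθ _; exact le_rfl)
      have hc : 0 ≤ β / (1 - k) := (div_pos hβ0 h1k).le
      have u1 := mul_le_mul_of_nonneg_left hl' t3
      have u2 := mul_le_mul_of_nonneg_left hr' t4
      have u3 : ((∑ σ, if PM G₁ σ then θ (Sum.inl σ) else 0) +
        (∑ σ, if PM G₂ σ then θ (Sum.inr σ) else 0)) * (β / (1 - k)) ≤ 1 * (β / (1 - k)) :=
        mul_le_mul_of_nonneg_right (by linarith) hc
      linarith)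
  refine ⟨z, ZZ_nonneg hz, hz.2.1, hz.2.2, ⟨fun a x h => ZZ_left hG₂ hz h, ?_⟩,
    ⟨fun x b h => ZZ_right hG₁ hz h, ?_⟩⟩
  · intro σ hσ
    have := hφ (Sum.inl σ)
    simp only [ph, if_pos hσ] at this
    exact this.le
  · intro σ hσ
    have := hφ (Sum.inr σ)
    simp only [ph, if_pos hσ] at this
    exact this.le

end Pool.Agent.Helper14.PL
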